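import Mathlib

open scoped commutatorElement

namespace Pool.Agent.Results.MP_ca0bb9_al.Full

universe u

variable {G : Type u} [Group G] [TopologicalSpace G] [IsTopologicalGroup G]

/-- closure of the subgroup generated by all closed non-normal subgroups -/
def Stilde (G : Type u) [Group G] [TopologicalSpace G] [IsTopologicalGroup G] : Subgroup G :=
  (sSup {L : Subgroup G | IsClosed (L : Set G) ∧ ¬ L.Normal}).topologicalClosure

lemma comm_of_mem [T2Space G] {a b z : G} (hz : z ∈ (Subgroup.zpowers a).topologicalClosure)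
    (h : Commute a b) : Commute z b := by
  have : closure (Subgroup.zpowers a : Set G) ⊆ {w | w * b = b * w} := by
    apply closure_minimal _ (isClosed_eq (by fun_prop) (by fun_prop))
    rintro _ ⟨n, rfl⟩
    exact h.zpow_left n
  exact this hz

lemma pow_of_mem [T2Space G] {a z : G} {q : ℕ} (hz : z ∈ (Subgroup.zpowers a).topologicalClosure)
    (h : a ^ q = 1) : z ^ q = 1 := by
  have : closure (Subgroup.zpowers a : Set G) ⊆ {w | w ^ q = 1} := by
    apply closure_minimal _ (isClosed_eq (continuous_pow q) continuous_const)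
    rintro _ ⟨n, rfl⟩
    show (a ^ n) ^ q = 1
    rw [← zpow_natCast, ← zpow_mul, mul_comm, zpow_mul, zpow_natCast, h, one_zpow]
  exact this hz

lemma key [T2Space G] [CompactSpace G] [TotallyDisconnectedSpace G] {p : ℕ} (hp : p.Prime)
    (hG : ∀ N : OpenNormalSubgroup G, IsPGroup p (G ⧸ N.toSubgroup)) (N : OpenNormalSubgroup G)
    {k : ℕ} (hq : ∀ g : G, g ^ p ^ k ∈ N) {x y : G}
    (hx : (Subgroup.zpowers x).topologicalClosure.Normal)
    (hy : (Subgroup.zpowers y).topologicalClosure.Normal) (hc : ⁅x, y⁆ ∉ N) :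
    (x ^ p ^ k) ^ p ^ k = 1 := by
  have mx : x ∈ (Subgroup.zpowers x).topologicalClosure :=
    Subgroup.le_topologicalClosure _ (Subgroup.mem_zpowers x)
  have my : y ∈ (Subgroup.zpowers y).topologicalClosure :=
    Subgroup.le_topologicalClosure _ (Subgroup.mem_zpowers y)
  have cx : ⁅x, y⁆ ∈ (Subgroup.zpowers x).topologicalClosure := by
    have := mul_mem mx (hx.conj_mem _ (inv_mem mx) y)
    simpa only [commutatorElement_def, mul_assoc] using this
  have cy : ⁅x, y⁆ ∈ (Subgroup.zpowers y).topologicalClosure :=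
    mul_mem (hy.conj_mem _ my x) (inv_mem my)
  have e0 : x * y = ⁅x, y⁆ * y * x := by simp [commutatorElement_def]
  generalize ⁅x, y⁆ = c at *
  have h1 : x ^ p ^ k ∈ (Subgroup.zpowers c).topologicalClosure := by
    by_contra hn
    obtain ⟨N', hN'⟩ := ProfiniteGrp.exist_openNormalSubgroup_sub_open_nhds_of_one
      (U := {g : G | x ^ p ^ k * g ∉ (Subgroup.zpowers c).topologicalClosure})
      ((Subgroup.isClosed_topologicalClosure _).isOpen_compl.preimage (by fun_prop))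
      (by simpa using hn)
    let M : OpenNormalSubgroup G := N' ⊓ N
    obtain ⟨_, hm, m, rfl⟩ := mem_closure_iff.1 cx {g : G | c⁻¹ * g ∈ M}
      (M.isOpen'.preimage (by fun_prop)) (by simp)
    let π := QuotientGroup.mk' M.toSubgroup
    have hcm : π c = π x ^ m := by
      rw [← map_zpow]; exact QuotientGroup.eq.2 hm
    obtain ⟨j, hj⟩ := hG M (π x)
    obtain ⟨i, -, hi⟩ := (Nat.dvd_prime_pow hp).1
      (show Int.gcd m (p ^ j : ℕ) ∣ p ^ j from Int.natCast_dvd_natCast.1 (Int.gcd_dvd_right _ _))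
    rcases le_total k i with hki | hki
    · obtain ⟨r, hr⟩ : ((p ^ k : ℕ) : ℤ) ∣ m :=
        (Int.natCast_dvd_natCast.2 (hi ▸ pow_dvd_pow p hki)).trans (Int.gcd_dvd_left _ _)
      have h2 : x ^ m ∈ N := by
        rw [hr, zpow_mul, zpow_natCast]
        exact N.toSubgroup.zpow_mem (hq x) r
      have h3 : c⁻¹ * x ^ m ∈ N := hm.2
      apply hc
      have := N.toSubgroup.mul_mem h2 (N.toSubgroup.inv_mem h3)
      rw [mul_inv_rev, inv_inv, mul_inv_cancel_left] at this
      exact this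
    · have h2 : π x ^ p ^ i = π c ^ (Int.gcdA m (p ^ j : ℕ)) := by
        rw [← zpow_natCast, ← hi, Int.gcd_eq_gcd_ab, zpow_add, zpow_mul, zpow_mul, zpow_natCast,
          hj, one_zpow, mul_one, hcm]
      obtain ⟨r, rfl⟩ := Nat.exists_eq_add_of_le hki
      have h3 : π (x ^ p ^ (i + r)) = π ((c ^ (Int.gcdA m (p ^ j : ℕ))) ^ p ^ r) := by
        rw [map_pow, map_pow, map_zpow, pow_add, pow_mul, h2]
      have h4 : (x ^ p ^ (i + r))⁻¹ * (c ^ (Int.gcdA m (p ^ j : ℕ))) ^ p ^ r ∈ M :=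
        QuotientGroup.eq.1 h3
      apply hN' h4.1
      rw [mul_inv_cancel_left]
      exact Subgroup.le_topologicalClosure _
        (pow_mem (Subgroup.zpow_mem _ (Subgroup.mem_zpowers c) _) _)
  have c1 : Commute c x := comm_of_mem cx (Commute.refl x)
  have c2 : Commute c y := comm_of_mem cy (Commute.refl y)
  have e1 : ∀ n : ℕ, x ^ n * y = c ^ n * y * x ^ n := by
    intro n
    induction n with
    | zero => simp
    | succ n ih =>
      calc x ^ (n + 1) * y = x * (x ^ n * y) := by rw [pow_succ', mul_assoc]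
        _ = (x * c ^ n) * y * x ^ n := by rw [ih]; simp only [mul_assoc]
        _ = c ^ n * (x * y) * x ^ n := by rw [← (c1.pow_left n).eq]; simp only [mul_assoc]
        _ = _ := by rw [e0, pow_succ, pow_succ' x]; simp only [mul_assoc]
  have h5 : c ^ p ^ k = 1 := by
    have := e1 (p ^ k)
    rw [(comm_of_mem h1 c2).eq, mul_assoc] at this
    exact (mul_eq_right.1 this.symm)
  exact pow_of_mem h1 h5

theorem expo {G : Type u} [Group G] [TopologicalSpace G] [IsTopologicalGroup G] [T2Space G]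
    [CompactSpace G] [TotallyDisconnectedSpace G] {p : ℕ} (hp : p.Prime)
    (hG : ∀ N : OpenNormalSubgroup G, IsPGroup p (G ⧸ N.toSubgroup))
    (hS : Stilde G ≠ ⊤) (hna : ∃ a b : G, a * b ≠ b * a) :
    ∃ K : ℕ, ∀ g : G, g ^ p ^ K = 1 := by
  have hn : ∀ x ∉ Stilde G, (Subgroup.zpowers x).topologicalClosure.Normal := by
    intro x hx
    by_contra h
    exact hx (Subgroup.le_topologicalClosure _ (le_sSup (s := {L : Subgroup G |
      IsClosed (L : Set G) ∧ ¬ L.Normal}) ⟨Subgroup.isClosed_topologicalClosure _, h⟩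
      (Subgroup.le_topologicalClosure _ (Subgroup.mem_zpowers x))))
  obtain ⟨x, hx, y, hy, hxy⟩ : ∃ x ∉ Stilde G, ∃ y ∉ Stilde G, ¬ Commute x y := by
    by_contra hc
    have hc' : ∀ x ∉ Stilde G, ∀ y ∉ Stilde G, Commute x y := fun x hx y hy => by
      by_contra h; exact hc ⟨x, hx, y, hy, h⟩
    obtain ⟨t, ht⟩ : ∃ t, t ∉ Stilde G := by
      by_contra h
      exact hS ((Subgroup.eq_top_iff' _).2 fun t => by by_contra h'; exact h ⟨t, h'⟩)
    have step : ∀ a : G, (∀ y ∉ Stilde G, Commute a y) → ∀ g, Commute a g := by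
      intro a ha g
      by_cases hg : g ∈ Stilde G
      · have := (ha (g * t) fun h => ht ((Subgroup.mul_mem_cancel_left _ hg).1 h)).mul_right
          (ha t ht).inv_right
        simpa using this
      · exact ha g hg
    obtain ⟨a, b, hab⟩ := hna
    exact hab (step a (fun y hy => (step y (hc' y hy) a).symm) b)
  obtain ⟨N, hN⟩ := ProfiniteGrp.exist_openNormalSubgroup_sub_open_nhds_of_one
    (U := {g : G | x * g ∉ Stilde G} ∩ {g | g ≠ ⁅x, y⁆})
    (((Subgroup.isClosed_topologicalClosure _).isOpen_compl.preimage (by fun_prop)).inter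
      isOpen_ne)
    ⟨by simpa using hx, fun h => hxy (commutatorElement_eq_one_iff_commute.1 h.symm)⟩
  have : Fact p.Prime := ⟨hp⟩
  have : Finite (G ⧸ N.toSubgroup) := Subgroup.quotient_finite_of_isOpen _ N.isOpen'
  obtain ⟨k, hk⟩ := IsPGroup.iff_card.1 (hG N)
  have hq : ∀ g : G, g ^ p ^ k ∈ N := by
    intro g
    have : ((g ^ p ^ k : G) : G ⧸ N.toSubgroup) = 1 := by
      rw [QuotientGroup.mk_pow, ← hk, pow_card_eq_one']
    exact (QuotientGroup.eq_one_iff _).1 this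
  have hall : ∀ n ∈ N, ((x * n) ^ p ^ k) ^ p ^ k = 1 := by
    intro n hnN
    refine key hp hG N hq (hn _ (hN hnN).1) (hn y hy) fun h => (hN ?_).2 rfl
    let π := QuotientGroup.mk' N.toSubgroup
    have e1 : π n = 1 := (QuotientGroup.eq_one_iff _).2 hnN
    have e2 : π ⁅x * n, y⁆ = 1 := (QuotientGroup.eq_one_iff _).2 h
    rw [map_commutatorElement, map_mul, e1, mul_one, ← map_commutatorElement] at e2
    exact (QuotientGroup.eq_one_iff _).1 e2
  refine ⟨k + (k + k) + (k + k), fun g => ?_⟩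
  rw [pow_add, pow_add, pow_add]
  have := hn x hx
  let π := QuotientGroup.mk' (Subgroup.zpowers x).topologicalClosure
  have e1 : π x = 1 := (QuotientGroup.eq_one_iff _).2
    (Subgroup.le_topologicalClosure _ (Subgroup.mem_zpowers x))
  have e2 := congrArg π (hall _ (hq g))
  rw [map_pow, map_pow, map_mul, e1, one_mul, map_one, ← map_pow, ← map_pow] at e2
  have e3 := hall 1 N.toSubgroup.one_mem
  rw [mul_one, ← pow_mul] at e3
  have := pow_of_mem ((QuotientGroup.eq_one_iff _).1 e2) e3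
  simpa only [← pow_mul, mul_assoc] using this

section alg
variable {H : Type u} [Group H] {p K : ℕ}

lemma gen (hp : p.Prime) (he : ∀ g : H, g ^ p ^ K = 1) {y w : H} (hw : w ∈ Subgroup.zpowers y) :
    ∃ i, y ^ p ^ i ∈ Subgroup.zpowers w ∧ w ∈ Subgroup.zpowers (y ^ p ^ i) := by
  obtain ⟨m, rfl⟩ := hw
  obtain ⟨i, -, hi⟩ := (Nat.dvd_prime_pow hp).1
    (show Int.gcd m (p ^ K : ℕ) ∣ p ^ K from Int.natCast_dvd_natCast.1 (Int.gcd_dvd_right _ _))
  refine ⟨i, ⟨Int.gcdA m (p ^ K : ℕ), ?_⟩, ?_⟩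
  · show (y ^ m) ^ _ = _
    rw [← zpow_natCast y, ← hi, Int.gcd_eq_gcd_ab, zpow_add, zpow_mul, zpow_mul, zpow_natCast,
      he, one_zpow, mul_one]
  · obtain ⟨r, hr⟩ : ((p ^ i : ℕ) : ℤ) ∣ m := hi ▸ Int.gcd_dvd_left _ _
    exact ⟨r, by show (y ^ p ^ i) ^ r = y ^ m; rw [hr, zpow_mul, zpow_natCast]⟩

lemma cmp (hp : p.Prime) (he : ∀ g : H, g ^ p ^ K = 1) {y a b : H} (ha : a ∈ Subgroup.zpowers y)
    (hb : b ∈ Subgroup.zpowers y) : a ∈ Subgroup.zpowers b ∨ b ∈ Subgroup.zpowers a := by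
  obtain ⟨i, a1, a2⟩ := gen hp he ha
  obtain ⟨j, b1, b2⟩ := gen hp he hb
  rcases le_total i j with h | h
  · right
    obtain ⟨r, rfl⟩ := Nat.exists_eq_add_of_le h
    refine Subgroup.zpowers_le.2 ?_ b2
    rw [pow_add, pow_mul]; exact pow_mem a1 _
  · left
    obtain ⟨r, rfl⟩ := Nat.exists_eq_add_of_le h
    refine Subgroup.zpowers_le.2 ?_ a2
    rw [pow_add, pow_mul]; exact pow_mem b1 _

lemma cyc (hp : p.Prime) (he : ∀ g : H, g ^ p ^ K = 1) (S : Subgroup H) {t : H} (ht : t ∉ S)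
    (hn : ∀ x ∉ S, (Subgroup.zpowers x).Normal) : ∃ c, commutator H = Subgroup.zpowers c := by
  have fin : ∀ g : H, IsOfFinOrder g := fun g =>
    isOfFinOrder_iff_pow_eq_one.2 ⟨_, pow_pos hp.pos K, he g⟩
  have cen0 : ∀ a b : H, ∀ x ∉ S, Commute ⁅a, b⁆ x := by
    intro a b x hx
    obtain ⟨m, hm⟩ := (hn x hx).conj_mem _ (Subgroup.mem_zpowers x) a⁻¹
    obtain ⟨n, hn⟩ := (hn x hx).conj_mem _ (Subgroup.mem_zpowers x) b⁻¹
    simp only at hm hn
    have e1 : a⁻¹ * (b⁻¹ * x * b⁻¹⁻¹) * a⁻¹⁻¹ = x ^ (m * n) := by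
      rw [← hn, ← conj_zpow, ← hm, zpow_mul]
    have e2 : b⁻¹ * (a⁻¹ * x * a⁻¹⁻¹) * b⁻¹⁻¹ = x ^ (m * n) := by
      rw [← hm, ← conj_zpow, ← hn, mul_comm m n, zpow_mul]
    have e3 := e1.trans e2.symm
    show ⁅a, b⁆ * x = x * ⁅a, b⁆
    calc ⁅a, b⁆ * x = a * b * (a⁻¹ * (b⁻¹ * x * b⁻¹⁻¹) * a⁻¹⁻¹) * a⁻¹ * b⁻¹ := by
          simp only [commutatorElement_def]; group
      _ = _ := by rw [e3]; simp only [commutatorElement_def]; group
  have cen : ∀ a b g : H, Commute ⁅a, b⁆ g := by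
    intro a b g
    by_cases hg : g ∈ S
    · have := (cen0 a b (g * t) fun h => ht ((Subgroup.mul_mem_cancel_left _ hg).1 h)).mul_right
        (cen0 a b t ht).inv_right
      simpa using this
    · exact cen0 a b g hg
  have cr : ∀ x y z : H, ⁅x, y * z⁆ = ⁅x, y⁆ * ⁅x, z⁆ := by
    intro x y z
    have e : ⁅x, y * z⁆ = ⁅x, y⁆ * (y * ⁅x, z⁆ * y⁻¹) := by
      simp only [commutatorElement_def]; group
    rw [e, ← (cen x z y).eq]; group
  let α : H → H →* H := fun x => MonoidHom.mk' (fun g => ⁅x, g⁆) (cr x)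
  have ml : ∀ x ∉ S, ∀ g, ⁅x, g⁆ ∈ Subgroup.zpowers x := by
    intro x hx g
    have := mul_mem (Subgroup.mem_zpowers x)
      ((hn x hx).conj_mem _ (inv_mem (Subgroup.mem_zpowers x)) g)
    simpa only [commutatorElement_def, mul_assoc] using this
  have mr : ∀ y ∉ S, ∀ g, ⁅g, y⁆ ∈ Subgroup.zpowers y := fun y hy g =>
    mul_mem ((hn y hy).conj_mem _ (Subgroup.mem_zpowers y) g) (inv_mem (Subgroup.mem_zpowers y))
  obtain ⟨⟨x, y⟩, hx, hmax⟩ := (measure fun q : H × H => p ^ K - orderOf ⁅q.1, q.2⁆).wf.has_min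
    {q | q.1 ∉ S} ⟨(t, t), ht⟩
  have hle : ∀ u ∉ S, ∀ v : H, orderOf ⁅u, v⁆ ≤ orderOf ⁅x, y⁆ := by
    intro u hu v
    have h1 : ¬ (p ^ K - orderOf ⁅u, v⁆ < p ^ K - orderOf ⁅x, y⁆) := hmax (u, v) hu
    have h2 : orderOf ⁅u, v⁆ ≤ p ^ K := orderOf_le_of_pow_eq_one (pow_pos hp.pos K) (he _)
    omega
  have F : ∀ u ∉ S, ∀ v z : H, ⁅x, y⁆ ∈ Subgroup.zpowers z → ⁅u, v⁆ ∈ Subgroup.zpowers z →
      ⁅u, v⁆ ∈ Subgroup.zpowers ⁅x, y⁆ := by
    intro u hu v z h1 h2
    rcases cmp hp he h1 h2 with h | h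
    · have : Finite (Subgroup.zpowers ⁅u, v⁆) := (fin _).finite_zpowers
      rw [Subgroup.eq_of_le_of_card_ge (Subgroup.zpowers_le.2 h)
        (by rw [Nat.card_zpowers, Nat.card_zpowers]; exact hle u hu v)]
      exact Subgroup.mem_zpowers _
    · exact h
  have main : ∀ u ∉ S, ∀ v : H, ⁅u, v⁆ ∈ Subgroup.zpowers ⁅x, y⁆ := by
    intro u hu v
    by_contra hv
    let A := (Subgroup.zpowers (⁅x, y⁆ ^ p)).comap (α x)
    let B := (Subgroup.zpowers ⁅x, y⁆).comap (α u)
    have hyA : y ∉ A := by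
      rintro ⟨r, hr⟩
      have hr' : (⁅x, y⁆ ^ p) ^ r = ⁅x, y⁆ := hr
      have h1 : ∀ n : ℕ, (⁅x, y⁆ ^ p ^ n) ^ (r ^ n) = ⁅x, y⁆ := by
        intro n
        induction n with
        | zero => simp
        | succ n ih =>
          calc (⁅x, y⁆ ^ p ^ (n + 1)) ^ r ^ (n + 1)
              = (((⁅x, y⁆ ^ p ^ n) ^ r ^ n) ^ p) ^ r := by
                simp only [← zpow_natCast, ← zpow_mul]
                congr 1
                push_cast
                ring
            _ = ⁅x, y⁆ := by rw [ih, hr']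
      have h2 := h1 K
      rw [he, one_zpow] at h2
      have h3 := hle u hu v
      rw [← h2, orderOf_one] at h3
      have h4 := (fin ⁅u, v⁆).orderOf_pos
      apply hv
      rw [orderOf_eq_one_iff.1 (show orderOf ⁅u, v⁆ = 1 by omega)]
      exact one_mem _
    have hvB : v ∉ B := hv
    have cov : ∀ f, f ∉ A → f ∉ B → f ∈ S := by
      intro f hA hB
      by_contra hf
      obtain ⟨i, h1, h2⟩ := gen hp he (F x hx f x (ml x hx y) (ml x hx f))
      rcases i with _ | i
      · rw [pow_zero, pow_one] at h1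
        exact hB (F u hu f f (Subgroup.zpowers_le.2 (mr f hf x) h1) (mr f hf u))
      · refine hA (Subgroup.mem_comap.2 (Subgroup.zpowers_le.2 ?_ h2))
        rw [pow_succ', pow_mul]; exact pow_mem (Subgroup.mem_zpowers _) _
    have hxA : x ∈ A := by
      show ⁅x, x⁆ ∈ Subgroup.zpowers _
      rw [commutatorElement_self]; exact one_mem _
    have hxB : x ∈ B := F u hu x x (ml x hx y) (mr x hx u)
    obtain ⟨f, hA, hB⟩ : ∃ f, f ∉ A ∧ f ∉ B := by
      by_cases h1 : y ∈ B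
      · by_cases h2 : v ∈ A
        · exact ⟨y * v, fun h => hyA ((A.mul_mem_cancel_right h2).1 h),
            fun h => hvB ((B.mul_mem_cancel_left h1).1 h)⟩
        · exact ⟨v, h2, hvB⟩
      · exact ⟨y, hyA, h1⟩
    exact hx ((S.mul_mem_cancel_left (cov f hA hB)).1 (cov (f * x)
      (fun h => hA ((A.mul_mem_cancel_right hxA).1 h))
      (fun h => hB ((B.mul_mem_cancel_right hxB).1 h))))
  refine ⟨⁅x, y⁆, le_antisymm ?_ (Subgroup.zpowers_le.2
    (Subgroup.commutator_mem_commutator (Subgroup.mem_top _) (Subgroup.mem_top _)))⟩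
  rw [commutator_def, Subgroup.commutator_le]
  intro g _ h _
  have m2 : ∀ u ∉ S, ⁅g, u⁆ ∈ Subgroup.zpowers ⁅x, y⁆ := fun u hu => by
    rw [← commutatorElement_inv u g]; exact inv_mem (main u hu g)
  by_cases hh : h ∈ S
  · have e : h = (h * t) * t⁻¹ := by group
    rw [e, cr]
    exact mul_mem (m2 _ fun h' => ht ((Subgroup.mul_mem_cancel_left _ hh).1 h'))
      (m2 _ fun h' => ht (inv_mem_iff.1 h'))
  · exact m2 h hh

end alg

theorem result {G : Type u} [Group G] [TopologicalSpace G] [IsTopologicalGroup G] [T2Space G]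
    [CompactSpace G] [TotallyDisconnectedSpace G] {p : ℕ} (hp : p.Prime)
    (hG : ∀ N : OpenNormalSubgroup G, IsPGroup p (G ⧸ N.toSubgroup))
    (hS0 : Stilde G ≠ ⊥) (hS : Stilde G ≠ ⊤) :
    ∃ n : ℕ, IsCyclic (commutator G).topologicalClosure ∧
      Nat.card (commutator G).topologicalClosure = p ^ n := by
  have hna : ∃ a b : G, a * b ≠ b * a := by
    by_contra hc
    have hc' : ∀ a b : G, a * b = b * a := fun a b => by
      by_contra h; exact hc ⟨a, b, h⟩
    apply hS0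
    refine le_bot_iff.1 (Subgroup.topologicalClosure_minimal _ (sSup_le ?_) (by simp))
    rintro L ⟨-, hL⟩
    exact absurd ⟨fun n hn g => by rwa [hc' g n, mul_inv_cancel_right]⟩ hL
  obtain ⟨K, he⟩ := expo hp hG hS hna
  have cl : ∀ x : G, IsClosed (Subgroup.zpowers x : Set G) := fun x =>
    (isOfFinOrder_iff_pow_eq_one.2 ⟨_, pow_pos hp.pos K, he x⟩).finite_zpowers.isClosed
  obtain ⟨t, ht⟩ : ∃ t, t ∉ Stilde G := by
    by_contra h
    exact hS ((Subgroup.eq_top_iff' _).2 fun t => by by_contra h'; exact h ⟨t, h'⟩)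
  obtain ⟨c, hc⟩ := cyc hp he (Stilde G) ht (by
    intro x hx
    by_contra h
    exact hx (Subgroup.le_topologicalClosure _ (le_sSup (s := {L : Subgroup G |
      IsClosed (L : Set G) ∧ ¬ L.Normal}) ⟨cl x, h⟩ (Subgroup.mem_zpowers x))))
  have e : (commutator G).topologicalClosure = Subgroup.zpowers c := by
    rw [hc]
    exact le_antisymm (Subgroup.topologicalClosure_minimal _ le_rfl (cl c))
      (Subgroup.le_topologicalClosure _)
  obtain ⟨n, -, hn⟩ := (Nat.dvd_prime_pow hp).1 (orderOf_dvd_of_pow_eq_one (he c))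
  rw [e]
  exact ⟨n, inferInstance, by rw [Nat.card_zpowers, hn]⟩

end Pool.Agent.Results.MP_ca0bb9_al.Full
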